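import Mathlib

/-!
# Lüroth's theorem inside an arbitrary extension
-/

set_option autoImplicit false

namespace Pool.Agent.Helper47.EN

open IntermediateField Polynomial

variable {k M : Type} [Field k] [Field M] [Algebra k M]

theorem luroth (u : M) (hu : Transcendental k u) (R : IntermediateField k M) (hR : R ≤ k⟮u⟯)
    [FiniteDimensional R M] : ∃ y, Transcendental k y ∧ R = k⟮y⟯ := by
  let e := RatFunc.algEquivOfTranscendental u hu
  let j : RatFunc k →ₐ[k] M := k⟮u⟯.val.comp (e : RatFunc k →ₐ[k] k⟮u⟯)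
  have hjr : ∀ x ∈ k⟮u⟯, ∃ z, j z = x := by
    intro x hx
    obtain ⟨z, hz⟩ := e.surjective ⟨x, hx⟩
    exact ⟨z, by
      change (e z : M) = x
      rw [hz]⟩
  let E : IntermediateField k (RatFunc k) := R.comap j
  have hE : E.map j = R := by
    ext x
    constructor
    · rintro ⟨z, hz, rfl⟩
      exact hz
    · intro hx
      obtain ⟨z, rfl⟩ := hjr x (hR hx)
      exact ⟨z, hx, rfl⟩
  have h1 := RatFunc.Luroth.eq_adjoin_generator (E := E)
  have h2 : R = k⟮j (RatFunc.Luroth.generator E)⟯ := by
    rw [← hE]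
    conv_lhs => rw [h1]
    rw [IntermediateField.adjoin_map, Set.image_singleton]
  refine ⟨_, ?_, h2⟩
  intro hal
  have h3 : Algebra.IsAlgebraic k R := by
    rw [h2]
    exact isAlgebraic_adjoin_simple hal.isIntegral
  have h4 : Algebra.IsAlgebraic k M := Algebra.IsAlgebraic.trans k R M
  exact hu (Algebra.IsAlgebraic.isAlgebraic u)

end Pool.Agent.Helper47.EN
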