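import Mathlib

/-!
# Generators of a rational function field are related by Möbius transformations
-/

set_option autoImplicit false
set_option linter.style.haveILetI false

namespace Pool.Agent.Helper47.EN

open IntermediateField Polynomial

variable {k M : Type} [Field k] [Field M] [Algebra k M]

theorem moebius_ratFunc (f : RatFunc k) (hf : k⟮f⟯ = ⊤) :
    f.num.natDegree ≤ 1 ∧ f.denom.natDegree ≤ 1 := by
  have h1 := f.finrank_eq_max_natDegree
  rw [hf, IntermediateField.finrank_top] at h1
  exact ⟨(le_max_left _ _).trans h1.ge, (le_max_right _ _).trans h1.ge⟩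

theorem moebius (y y' : M) (hy : Transcendental k y) (h : k⟮y'⟯ = k⟮y⟯) :
    ∃ a b c d : k, a * d - b * c ≠ 0 ∧ algebraMap k M c * y + algebraMap k M d ≠ 0 ∧
      y' = (algebraMap k M a * y + algebraMap k M b) /
        (algebraMap k M c * y + algebraMap k M d) := by
  let e := RatFunc.algEquivOfTranscendental y hy
  let j : RatFunc k →ₐ[k] M := k⟮y⟯.val.comp (e : RatFunc k →ₐ[k] k⟮y⟯)
  have hj : ∀ u, j u = (e u : M) := fun _ => rfl
  have hy' : y' ∈ k⟮y⟯ := by
    rw [← h]
    exact mem_adjoin_simple_self k y'
  obtain ⟨f, hf⟩ := e.surjective ⟨y', hy'⟩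
  have hf' : j f = y' := by rw [hj, hf]
  have hjr : j.fieldRange = k⟮y⟯ := by
    ext x
    constructor
    · rintro ⟨u, rfl⟩
      exact (e u).2
    · intro hx
      obtain ⟨u, hu⟩ := e.surjective ⟨x, hx⟩
      exact ⟨u, by
        change (e u : M) = x
        rw [hu]⟩
  have htop : k⟮f⟯ = ⊤ := by
    have h1 : (k⟮f⟯).map j = (⊤ : IntermediateField k (RatFunc k)).map j := by
      rw [IntermediateField.adjoin_map, Set.image_singleton, hf', h, ← hjr,
        ← AlgHom.fieldRange_eq_map]
    exact IntermediateField.map_injective j h1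
  obtain ⟨h1, h2⟩ := moebius_ratFunc f htop
  have hnum : f.num = C (f.num.coeff 1) * X + C (f.num.coeff 0) :=
    Polynomial.eq_X_add_C_of_natDegree_le_one h1
  have hden : f.denom = C (f.denom.coeff 1) * X + C (f.denom.coeff 0) :=
    Polynomial.eq_X_add_C_of_natDegree_le_one h2
  have hyf : y' = aeval y f.num / aeval y f.denom := by
    rw [← hf', hj]
    exact RatFunc.algEquivOfTranscendental_apply y hy f
  have hden0 : aeval y f.denom ≠ 0 := by
    intro h0
    exact f.denom_ne_zero ((transcendental_iff_injective.1 hy) (by rw [h0, map_zero]))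
  refine ⟨f.num.coeff 1, f.num.coeff 0, f.denom.coeff 1, f.denom.coeff 0, ?_, ?_, ?_⟩
  · intro hdet
    -- the pair would be proportional, so `y'` constant
    obtain ⟨l, hl⟩ : ∃ l : k, f.num = C l * f.denom := by
      set a := f.num.coeff 1
      set b := f.num.coeff 0
      set c := f.denom.coeff 1
      set d := f.denom.coeff 0
      by_cases hc : c = 0
      · have hd : d ≠ 0 := by
          intro hd
          apply f.denom_ne_zero
          rw [hden, hc, hd]
          simp
        have ha : a = 0 := by
          rw [hc, mul_zero, sub_zero] at hdet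
          exact (mul_eq_zero.1 hdet).resolve_right hd
        refine ⟨b / d, ?_⟩
        rw [hnum, hden, ha, hc]
        simp only [map_zero, zero_mul, zero_add]
        rw [← C_mul, div_mul_cancel₀ _ hd]
      · refine ⟨a / c, ?_⟩
        rw [hnum, hden, mul_add, ← mul_assoc, ← C_mul, ← C_mul, div_mul_cancel₀ _ hc]
        congr 2
        field_simp
        linear_combination -hdet
    have hyl : y' = algebraMap k M l := by
      rw [hyf, hl, map_mul, aeval_C, mul_div_assoc, div_self hden0, mul_one]
    have hbot : k⟮y'⟯ = ⊥ := by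
      rw [adjoin_simple_eq_bot_iff, hyl]
      exact IntermediateField.algebraMap_mem _ l
    have hyb : y ∈ (⊥ : IntermediateField k M) := by
      rw [← hbot, h]
      exact mem_adjoin_simple_self k y
    obtain ⟨c, hc⟩ := mem_bot.1 hyb
    apply hy
    rw [← hc]
    exact isAlgebraic_algebraMap c
  · rw [hden] at hden0
    simpa using hden0
  · rw [hyf, hnum, hden]
    simp

end Pool.Agent.Helper47.EN
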