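import Pool.Agent.Helper47.EN.Group
import Pool.Agent.Helper47.EN.Moebius
import Pool.Agent.Helper47.EN.Lur
import Pool.Agent.Helper31.RRK.Frob
import Pool.Agent.Helper13.EN.V2

/-!
# The rational quotient
-/

set_option autoImplicit false
set_option linter.style.haveILetI false

namespace Pool.Agent.Helper47.EN

open Pool.Agent.Helper16 Pool.Agent.Helper45.S4 Pool.Agent.Helper47.RR IntermediateField

variable {k M : Type} [Field k] [Field M] [Algebra k M]

/-- Artin's theorem for a finite group of automorphisms of an arbitrary extension. -/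
theorem artin (A : Subgroup (M ≃ₐ[k] M)) (hA : (A : Set (M ≃ₐ[k] M)).Finite) :
    FiniteDimensional (fixedField A) M ∧ Algebra.IsSeparable (fixedField A) M ∧
      Module.finrank (fixedField A) M ≤ (A : Set (M ≃ₐ[k] M)).ncard := by
  haveI : Finite A := hA
  letI := Fintype.ofFinite A
  refine ⟨?_, ?_, ?_⟩
  · exact inferInstanceAs (FiniteDimensional (FixedPoints.subfield A M) M)
  · exact inferInstanceAs (Algebra.IsSeparable (FixedPoints.subfield A M) M)
  · have h1 := FixedPoints.finrank_le_card A M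
    have h2 : Fintype.card A = (A : Set (M ≃ₐ[k] M)).ncard := by
      rw [← Nat.card_eq_fintype_card]
      rfl
    rw [← h2]
    exact h1

section semi

variable (hM : IsFunctionField k M) (γ : M ≃+* M) (γ₀ : k ≃+* k)
  (hγ : ∀ c : k, γ (algebraMap k M c) = algebraMap k M (γ₀ c))

include hγ in
theorem symm_semi (c : k) : γ.symm (algebraMap k M c) = algebraMap k M (γ₀.symm c) := by
  rw [RingEquiv.symm_apply_eq, hγ, RingEquiv.apply_symm_apply]

/-- conjugation of an automorphism by a semilinear automorphism -/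
noncomputable def conjSemi (a : M ≃ₐ[k] M) : M ≃ₐ[k] M :=
  AlgEquiv.ofRingEquiv (f := (γ.trans a.toRingEquiv).trans γ.symm) (fun c => by
    change γ.symm (a (γ (algebraMap k M c))) = _
    rw [hγ, AlgEquiv.commutes, ← hγ, RingEquiv.symm_apply_apply])

theorem conjSemi_apply (a : M ≃ₐ[k] M) (x : M) :
    conjSemi γ γ₀ hγ a x = γ.symm (a (γ x)) := rfl

theorem conjSemi_symm_apply (a : M ≃ₐ[k] M) (x : M) :
    (conjSemi γ γ₀ hγ a).symm x = γ.symm (a.symm (γ x)) := by
  rw [AlgEquiv.symm_apply_eq, conjSemi_apply, RingEquiv.apply_symm_apply,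
    AlgEquiv.apply_symm_apply, RingEquiv.symm_apply_apply]

theorem act_conjSemi (a : M ≃ₐ[k] M) (P : Place k M) :
    act (conjSemi γ γ₀ hγ a) P =
      tw γ γ₀ hγ (act a (tw γ.symm γ₀.symm (symm_semi γ γ₀ hγ) P)) := by
  apply Place.ext_val
  ext x
  rw [tw_val, act_val, act_val, tw_val, conjSemi_symm_apply]

theorem tw_tw (P : Place k M) :
    tw γ γ₀ hγ (tw γ.symm γ₀.symm (symm_semi γ γ₀ hγ) P) = P := by
  apply Place.ext_val
  ext x
  rw [tw_val, tw_val, RingEquiv.symm_apply_apply]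

/-- the action on classes -/
theorem exists_twCl : ∃ T : Cl hM →+ Cl hM, ∀ P, T (pt hM P) = pt hM (tw γ γ₀ hγ P) := by
  classical
  have hle : PrinSub hM ≤ (PrinSub hM).comap
      (Finsupp.mapDomain.addMonoidHom (tw γ γ₀ hγ) : Dv k M →+ Dv k M) := by
    rintro _ ⟨f, hf, rfl⟩
    refine ⟨γ.symm f, by simpa using hf, ?_⟩
    rw [← tw_prin hM γ γ₀ hγ (γ.symm f), RingEquiv.apply_symm_apply]
    rfl
  refine ⟨QuotientAddGroup.map _ _ _ hle, fun P => ?_⟩
  change cl hM (Finsupp.mapDomain (tw γ γ₀ hγ) (Finsupp.single P 1)) = _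
  rw [Finsupp.mapDomain_single]
  rfl

theorem Kp_conj {a : M ≃ₐ[k] M} (ha : Kp hM a) : Kp hM (conjSemi γ γ₀ hγ a) := by
  obtain ⟨T, hT⟩ := exists_twCl hM γ γ₀ hγ
  obtain ⟨c, hc⟩ := ha
  refine ⟨T c, fun P => ?_⟩
  rw [act_conjSemi, ← hT, hc, map_add, hT, tw_tw]

theorem Km_conj {a : M ≃ₐ[k] M} (ha : Km hM a) : Km hM (conjSemi γ γ₀ hγ a) := by
  obtain ⟨T, hT⟩ := exists_twCl hM γ γ₀ hγ
  obtain ⟨c, hc⟩ := ha
  refine ⟨T c, fun P => ?_⟩
  rw [act_conjSemi, ← hT, hc, map_add, map_neg, hT, tw_tw]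

theorem conj_mem_GA (ψ : M →ₐ[k] M) (hcomm : ∀ x, γ (ψ x) = ψ (γ x)) {a : M ≃ₐ[k] M}
    (ha : a ∈ GA hM ψ) : conjSemi γ γ₀ hγ a ∈ GA hM ψ := by
  obtain ⟨h1, h2⟩ := ha
  refine ⟨fun x => ?_, ?_⟩
  · rw [conjSemi_apply, conjSemi_apply, hcomm, h1, RingEquiv.symm_apply_eq, hcomm,
      RingEquiv.apply_symm_apply]
  · rcases h2 with h2 | h2
    · exact Or.inl (Kp_conj hM γ γ₀ hγ h2)
    · exact Or.inr (Km_conj hM γ γ₀ hγ h2)

include hγ in
theorem semi_mem_fixed (ψ : M →ₐ[k] M) (hcomm : ∀ x, γ (ψ x) = ψ (γ x)) {x : M}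
    (hx : x ∈ fixedField (GA hM ψ)) : γ x ∈ fixedField (GA hM ψ) := by
  rw [mem_fixedField_iff] at hx ⊢
  intro a ha
  have h1 := hx _ (conj_mem_GA hM γ γ₀ hγ ψ hcomm ha)
  rw [conjSemi_apply, RingEquiv.symm_apply_eq] at h1
  exact h1

end semi

section main

variable [IsAlgClosed k] (hM : IsFunctionField k M)

include hM in
/-- the genus one case -/
theorem quotient_genus_one (hg : genus k M = 1) (ψ : M →ₐ[k] M) (g : M) (hψ : ψ g ≠ g)
    (ht : Transcendental k g) (O : Place k M) (hO : plc hM hM ψ O = O) :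
    ∃ y : M, Transcendental k y ∧ (∀ x ∈ k⟮y⟯, ψ x ∈ k⟮y⟯) ∧
      Module.finrank k⟮y⟯ M ≤ 2 * (2 * Module.finrank k⟮g⟯ M + Module.finrank k⟮ψ g⟯ M) ∧
      ∀ (γ : M ≃+* M) (γ₀ : k ≃+* k), (∀ c, γ (algebraMap k M c) = algebraMap k M (γ₀ c)) →
        (∀ x, γ (ψ x) = ψ (γ x)) → ∀ x ∈ k⟮y⟯, γ x ∈ k⟮y⟯ := by
  obtain ⟨hfin, hcard⟩ := finite_fix hM ψ g hψ ht
  obtain ⟨h1, h2⟩ := finite_GA hM hg ψ O hO hfin
  obtain ⟨h3, h4, h5⟩ := artin (GA hM ψ) h1
  obtain ⟨i, u, hu, -, hiu, hi⟩ := Helper84.EN.exists_involution hM hg O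
  have hiA : i ∈ GA hM ψ := by
    refine ⟨involution_comm hM hg ψ O hO i hi, Or.inr ⟨(2 : ℕ) • pt hM O, fun P => ?_⟩⟩
    rw [← hi P]
    abel
  have hR : fixedField (GA hM ψ) ≤ k⟮u⟯ := by
    intro x hx
    rw [mem_fixedField_iff] at hx
    exact (hiu x).1 (hx i hiA)
  obtain ⟨y, hy, hRy⟩ := luroth u hu _ hR
  refine ⟨y, hy, ?_, ?_, ?_⟩
  · rw [← hRy]
    intro x hx
    rw [mem_fixedField_iff] at hx ⊢
    intro a ha
    rw [ha.1, hx a ha]
  · rw [← hRy]
    omega
  · intro γ γ₀ hγ hcomm x hx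
    rw [← hRy] at hx ⊢
    exact semi_mem_fixed hM γ γ₀ hγ ψ hcomm hx

/-- semilinear automorphisms stabilising `k(y)` act by Möbius transformations -/
theorem moebius_of_stable (y : M) (hy : Transcendental k y) (γ : M ≃+* M) (γ₀ : k ≃+* k)
    (hγ : ∀ c, γ (algebraMap k M c) = algebraMap k M (γ₀ c))
    (h1 : γ y ∈ k⟮y⟯) (h2 : γ.symm y ∈ k⟮y⟯) :
    ∃ a b c d : k, a * d - b * c ≠ 0 ∧ algebraMap k M c * y + algebraMap k M d ≠ 0 ∧
      γ y = (algebraMap k M a * y + algebraMap k M b) /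
        (algebraMap k M c * y + algebraMap k M d) := by
  apply moebius y (γ y) hy
  apply le_antisymm
  · rw [adjoin_simple_le_iff]
    exact h1
  · rw [adjoin_simple_le_iff]
    -- the preimage of `k(γ y)` is an intermediate field containing `y`
    let S : IntermediateField k M :=
      { (k⟮γ y⟯.toSubfield.comap (γ : M →+* M)) with
        algebraMap_mem' := fun c => by
          change γ (algebraMap k M c) ∈ k⟮γ y⟯
          rw [hγ]
          exact k⟮γ y⟯.algebraMap_mem _ }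
    have hS : ∀ x, x ∈ S ↔ γ x ∈ k⟮γ y⟯ := fun _ => Iff.rfl
    have hyS : k⟮y⟯ ≤ S := by
      rw [adjoin_simple_le_iff, hS]
      exact mem_adjoin_simple_self k (γ y)
    have h3 := hyS h2
    rw [hS, RingEquiv.apply_symm_apply] at h3
    exact h3

theorem pow_comm (φ : M →ₐ[k] M) (γ : M ≃+* M) (hcomm : ∀ x, γ (φ x) = φ (γ x)) (i : ℕ) (x : M) :
    γ ((φ ^ i) x) = (φ ^ i) (γ x) := by
  induction i generalizing x with
  | zero => rfl
  | succ n ih =>
    rw [pow_succ]
    change γ ((φ ^ n) (φ x)) = (φ ^ n) (φ (γ x))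
    rw [ih, hcomm]

theorem symm_comm (ψ : M →ₐ[k] M) (γ : M ≃+* M) (hcomm : ∀ x, γ (ψ x) = ψ (γ x)) (x : M) :
    γ.symm (ψ x) = ψ (γ.symm x) := by
  rw [RingEquiv.symm_apply_eq, hcomm, RingEquiv.apply_symm_apply]

/-- a power of a non-surjective endomorphism does not fix a transcendental function -/
theorem surjective_of_pow_eq (hM : IsFunctionField k M) (φ : M →ₐ[k] M) (h : M)
    (hh : Transcendental k h) (i : ℕ) (hi : 1 ≤ i) (heq : (φ ^ i) h = h) :
    Function.Surjective φ := by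
  haveI : FiniteDimensional k⟮h⟯ M := hM.finiteDimensional h hh
  have hfix : ∀ x ∈ k⟮h⟯, (φ ^ i) x = x := by
    intro x hx
    let S : IntermediateField k M :=
      { carrier := {x | (φ ^ i) x = x}
        mul_mem' := fun {a b} ha hb => by
          change (φ ^ i) (a * b) = a * b
          rw [map_mul]
          exact congrArg₂ _ ha hb
        add_mem' := fun {a b} ha hb => by
          change (φ ^ i) (a + b) = a + b
          rw [map_add]
          exact congrArg₂ _ ha hb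
        algebraMap_mem' := fun c => (φ ^ i).commutes c
        inv_mem' := fun a ha => by
          change (φ ^ i) a⁻¹ = a⁻¹
          rw [map_inv₀]
          exact congrArg _ ha }
    have hS : k⟮h⟯ ≤ S := by
      rw [adjoin_simple_le_iff]
      exact heq
    exact hS hx
  let f : M →ₗ[k⟮h⟯] M :=
    { toFun := fun x => (φ ^ i) x
      map_add' := fun x y => map_add (φ ^ i) x y
      map_smul' := fun c x => by
        change (φ ^ i) (c • x) = c • (φ ^ i) x
        rw [Algebra.smul_def, map_mul, Algebra.smul_def]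
        congr 1
        exact hfix _ c.2 }
  have hinj : Function.Injective f := (φ ^ i).toRingHom.injective
  have hsurj := LinearMap.surjective_of_injective hinj
  intro y
  obtain ⟨x, hx⟩ := hsurj y
  obtain ⟨n, rfl⟩ : ∃ n, i = n + 1 := ⟨i - 1, by omega⟩
  refine ⟨(φ ^ n) x, ?_⟩
  rw [← hx]
  change _ = (φ ^ (n + 1)) x
  rw [pow_succ']
  rfl

/-- **The rational quotient theorem.** -/
theorem rational_quotient (hM : IsFunctionField k M) (φ : M →ₐ[k] M)
    (hsep : 2 ≤ Field.finSepDegree φ.fieldRange M) (h : M) (hh : Transcendental k h)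
    (hφ : φ h ∈ k⟮h⟯) :
    ∃ (i : ℕ) (y : M), 1 ≤ i ∧ i ≤ Module.finrank k⟮h⟯ M ∧ Transcendental k y ∧
      (φ ^ i) y ∈ k⟮y⟯ ∧
      Module.finrank k⟮y⟯ M ≤
        2 * (2 * Module.finrank k⟮h⟯ M + Module.finrank k⟮(φ ^ i) h⟯ M) + 1 ∧
      ∀ (γ : M ≃+* M) (γ₀ : k ≃+* k), (∀ c, γ (algebraMap k M c) = algebraMap k M (γ₀ c)) →
        (∀ x, γ (φ x) = φ (γ x)) →
        ∃ a b c d : k, a * d - b * c ≠ 0 ∧ algebraMap k M c * y + algebraMap k M d ≠ 0 ∧
          γ y = (algebraMap k M a * y + algebraMap k M b) /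
            (algebraMap k M c * y + algebraMap k M d) := by
  have hg := Helper31.RRK.genus_le_one_of_finSepDegree hM φ hsep
  have hg0 := genus_nonneg hM
  have hns : ¬ Function.Surjective φ := by
    intro hs
    have h1 : φ.fieldRange = ⊤ := by
      rw [eq_top_iff]
      intro x _
      obtain ⟨y, hy⟩ := hs x
      exact ⟨y, hy⟩
    rw [h1] at hsep
    haveI : IsPurelyInseparable (⊤ : IntermediateField k M) M := by
      refine ⟨⟨fun x => ?_⟩, fun x _ => ⟨⟨x, mem_top⟩, rfl⟩⟩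
      exact isIntegral_algebraMap (R := (⊤ : IntermediateField k M)) (x := ⟨x, mem_top⟩)
    have h2 : Field.finSepDegree (⊤ : IntermediateField k M) M = 1 :=
      IsPurelyInseparable.finSepDegree_eq_one _ _
    omega
  obtain ⟨i, hi1, hi2, O, hO⟩ := exists_periodic hM φ h hh hφ
  have hne : (φ ^ i) h ≠ h := fun heq => hns (surjective_of_pow_eq hM φ h hh i hi1 heq)
  rcases (show genus k M = 0 ∨ genus k M = 1 by omega) with hg | hg
  · -- genus zero
    obtain ⟨y, hy, htop⟩ := Helper84.RRE.genus_zero hM hg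
    refine ⟨i, y, hi1, hi2, hy, ?_, ?_, ?_⟩
    · rw [htop]; exact mem_top
    · rw [htop, IntermediateField.finrank_top]
      omega
    · intro γ γ₀ hγ hcomm
      apply moebius_of_stable y hy γ γ₀ hγ
      · rw [htop]; exact mem_top
      · rw [htop]; exact mem_top
  · obtain ⟨y, hy, h1, h2, h3⟩ := quotient_genus_one hM hg (φ ^ i) h hne hh O hO
    refine ⟨i, y, hi1, hi2, hy, h1 y (mem_adjoin_simple_self k y), h2.trans (Nat.le_succ _), ?_⟩
    intro γ γ₀ hγ hcomm
    have hcomm' := pow_comm φ γ hcomm i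
    apply moebius_of_stable y hy γ γ₀ hγ
    · exact h3 γ γ₀ hγ hcomm' y (mem_adjoin_simple_self k y)
    · exact h3 γ.symm γ₀.symm (symm_semi γ γ₀ hγ) (symm_comm _ γ hcomm') y
        (mem_adjoin_simple_self k y)

end main

end Pool.Agent.Helper47.EN
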