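import Pool.Agent.Helper47.RR.B3

/-!
# Places under homomorphisms and semilinear automorphisms, divisor classes
-/

set_option autoImplicit false
set_option linter.style.haveILetI false

namespace Pool.Agent.Helper47.EN

open Pool.Agent.Helper16 Pool.Agent.Helper45.S4 Pool.Agent.Helper47.RR

variable {k L M N : Type} [Field k] [Field L] [Field M] [Field N] [Algebra k L] [Algebra k M]
  [Algebra k N]

/-- an extension of function fields is algebraic -/
theorem isAlgebraic_of_hom (hL : IsFunctionField k L) (hM : IsFunctionField k M) [Algebra L M]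
    [IsScalarTower k L M] : Algebra.IsAlgebraic L M := by
  have h1 := trdeg_add_eq k L (A := M)
  rw [hL.2, hM.2] at h1
  rw [← trdeg_eq_zero_iff]
  have h3 : Algebra.trdeg L M < Cardinal.aleph0 := by
    refine lt_of_le_of_lt ?_ Cardinal.one_lt_aleph0
    rw [← h1]
    exact self_le_add_left _ _
  obtain ⟨n, hn⟩ := Cardinal.lt_aleph0.1 h3
  rw [hn] at h1 ⊢
  norm_cast at h1 ⊢
  omega

section plc

variable (hL : IsFunctionField k L) (hM : IsFunctionField k M) (φ : L →ₐ[k] M)

include hL hM in
theorem exists_plc (w : Place k M) :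
    ∃ v : Place k L, ∃ r : ℕ, 1 ≤ r ∧ ∀ x : L, w.ord (φ x) = r * v.ord x := by
  letI : Algebra L M := φ.toRingHom.toAlgebra
  haveI : IsScalarTower k L M := IsScalarTower.of_algebraMap_eq (fun x => (φ.commutes x).symm)
  haveI := isAlgebraic_of_hom hL hM
  exact exists_resPl hL w

/-- the place of `L` below a place of `M`, along a homomorphism `L → M` -/
noncomputable def plc (w : Place k M) : Place k L := (exists_plc hL hM φ w).choose

/-- the ramification index of a place of `M`, along a homomorphism `L → M` -/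
noncomputable def rmi (w : Place k M) : ℕ := (exists_plc hL hM φ w).choose_spec.choose

theorem rmi_pos (w : Place k M) : 1 ≤ rmi hL hM φ w :=
  (exists_plc hL hM φ w).choose_spec.choose_spec.1

theorem ord_hom (w : Place k M) (x : L) :
    w.ord (φ x) = rmi hL hM φ w * (plc hL hM φ w).ord x :=
  (exists_plc hL hM φ w).choose_spec.choose_spec.2 x

theorem plc_val_le_one (w : Place k M) (x : L) :
    (plc hL hM φ w).val x ≤ 1 ↔ w.val (φ x) ≤ 1 := by
  by_cases hx : x = 0
  · simp [hx]
  have hx' : φ x ≠ 0 := by simpa using hx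
  rw [← Place.ord_nonneg_iff _ hx, ← Place.ord_nonneg_iff _ hx', ord_hom hL hM φ w]
  have := rmi_pos hL hM φ w
  constructor
  · intro h; positivity
  · intro h
    by_contra hcon
    rw [not_le] at hcon
    have : (rmi hL hM φ w : ℤ) * (plc hL hM φ w).ord x < 0 :=
      mul_neg_of_pos_of_neg (by positivity) hcon
    omega

theorem plc_val_lt_one (w : Place k M) (x : L) :
    (plc hL hM φ w).val x < 1 ↔ w.val (φ x) < 1 := by
  by_cases hx : x = 0
  · simp [hx]
  have hx' : φ x ≠ 0 := by simpa using hx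
  rw [← Place.ord_pos_iff _ hx, ← Place.ord_pos_iff _ hx', ord_hom hL hM φ w]
  have := rmi_pos hL hM φ w
  constructor
  · intro h; positivity
  · intro h
    by_contra hcon
    rw [not_lt] at hcon
    have : (rmi hL hM φ w : ℤ) * (plc hL hM φ w).ord x ≤ 0 :=
      mul_nonpos_of_nonneg_of_nonpos (by positivity) hcon
    omega

/-- characterisation of the place below -/
theorem plc_eq_of (w : Place k M) (v : Place k L)
    (h : ∀ x : L, w.val (φ x) ≤ 1 → v.val x ≤ 1) : plc hL hM φ w = v :=
  place_ext fun x hx => h x ((plc_val_le_one hL hM φ w x).1 hx)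

end plc

theorem plc_comp (hL : IsFunctionField k L) (hM : IsFunctionField k M) (hN : IsFunctionField k N)
    (φ : L →ₐ[k] M) (ψ : M →ₐ[k] N) (w : Place k N) :
    plc hL hN (ψ.comp φ) w = plc hL hM φ (plc hM hN ψ w) := by
  apply plc_eq_of
  intro x hx
  rw [plc_val_le_one, plc_val_le_one]
  exact hx

theorem plc_id (hL : IsFunctionField k L) (w : Place k L) : plc hL hL (AlgHom.id k L) w = w :=
  plc_eq_of hL hL _ _ _ fun _ hx => hx

/-- the action of an automorphism on places -/
theorem plc_equiv (hM : IsFunctionField k M) (σ : M ≃ₐ[k] M) (w : Place k M) :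
    plc hM hM (σ : M →ₐ[k] M) w = act σ⁻¹ w :=
  plc_eq_of hM hM _ _ _ fun _ hx => hx

theorem plc_act (hL : IsFunctionField k L) (hM : IsFunctionField k M) (φ : L →ₐ[k] M)
    (σ : M ≃ₐ[k] M) (w : Place k M) :
    plc hL hM φ (act σ w) = plc hL hM (((σ⁻¹ : M ≃ₐ[k] M) : M →ₐ[k] M).comp φ) w := by
  symm
  apply plc_eq_of
  intro x hx
  rw [plc_val_le_one]
  exact hx

/-- semilinear automorphisms act on places: `(tw γ w) x = w (γ x)` -/
noncomputable def tw (γ : M ≃+* M) (γ₀ : k ≃+* k)
    (hγ : ∀ c : k, γ (algebraMap k M c) = algebraMap k M (γ₀ c)) (w : Place k M) : Place k M where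
  val := w.val.comap (γ : M →+* M)
  surj := fun y => by
    obtain ⟨x, hx⟩ := w.surj y
    refine ⟨γ.symm x, ?_⟩
    rw [Valuation.comap_apply]
    change w.val (γ (γ.symm x)) = y
    rw [RingEquiv.apply_symm_apply, hx]
  triv := fun a ha => by
    rw [Valuation.comap_apply]
    change w.val (γ (algebraMap k M a)) = 1
    rw [hγ]
    exact w.triv _ (by simpa using ha)

theorem tw_val (γ : M ≃+* M) (γ₀ : k ≃+* k)
    (hγ : ∀ c : k, γ (algebraMap k M c) = algebraMap k M (γ₀ c)) (w : Place k M) (x : M) :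
    (tw γ γ₀ hγ w).val x = w.val (γ x) := rfl

theorem tw_ord (γ : M ≃+* M) (γ₀ : k ≃+* k)
    (hγ : ∀ c : k, γ (algebraMap k M c) = algebraMap k M (γ₀ c)) (w : Place k M) (x : M) :
    (tw γ γ₀ hγ w).ord x = w.ord (γ x) := rfl

/-- The group of principal divisors. -/
noncomputable def PrinSub (hM : IsFunctionField k M) : AddSubgroup (Dv k M) where
  carrier := {D | ∃ f : M, f ≠ 0 ∧ D = prin hM f}
  add_mem' := by
    rintro _ _ ⟨f, hf, rfl⟩ ⟨g, hg, rfl⟩
    exact ⟨f * g, mul_ne_zero hf hg, (prin_mul hM hf hg).symm⟩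
  zero_mem' := ⟨1, one_ne_zero, by
    ext v
    change 0 = v.ord (1 : M)
    rw [Place.ord_one]⟩
  neg_mem' := by
    rintro _ ⟨f, hf, rfl⟩
    exact ⟨f⁻¹, inv_ne_zero hf, (prin_inv hM f).symm⟩

theorem mem_PrinSub (hM : IsFunctionField k M) (D : Dv k M) :
    D ∈ PrinSub hM ↔ ∃ f : M, f ≠ 0 ∧ D = prin hM f := Iff.rfl

/-- The divisor class group. -/
abbrev Cl (hM : IsFunctionField k M) : Type := Dv k M ⧸ PrinSub hM

/-- The class of a divisor. -/
noncomputable def cl (hM : IsFunctionField k M) : Dv k M →+ Cl hM :=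
  QuotientAddGroup.mk' (PrinSub hM)

/-- The class of a place. -/
noncomputable def pt (hM : IsFunctionField k M) (P : Place k M) : Cl hM :=
  cl hM (Finsupp.single P 1)

theorem cl_eq_iff (hM : IsFunctionField k M) (D E : Dv k M) :
    cl hM D = cl hM E ↔ ∃ f : M, f ≠ 0 ∧ D - E = prin hM f := by
  rw [← sub_eq_zero, ← map_sub]
  exact (QuotientAddGroup.eq_zero_iff _).trans (mem_PrinSub hM _)

end Pool.Agent.Helper47.EN
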