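import Pool.Agent.Helper47.EN.Defs
import Pool.Agent.Helper84.RRE

/-!
# Homomorphisms are determined by their action on places; fixed places
-/

set_option autoImplicit false
set_option linter.style.haveILetI false

namespace Pool.Agent.Helper47.EN

open Pool.Agent.Helper16 Pool.Agent.Helper45.S4 Pool.Agent.Helper47.RR IntermediateField
open Pool.Agent.Helper45.FF

variable {k L M : Type} [Field k] [Field L] [Field M] [Algebra k L] [Algebra k M]

theorem infinite_place [IsAlgClosed k] (hM : IsFunctionField k M) : Infinite (Place k M) := by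
  obtain ⟨t, ht⟩ := Helper45.S4.exists_transcendental hM
  haveI : Infinite k := IsAlgClosed.instInfinite
  have h1 : ∀ c : k, ∃ w : Place k M, w.val (t - algebraMap k M c) < 1 := by
    intro c
    have htc : Transcendental k (t - algebraMap k M c) := by
      intro h
      apply ht
      have := h.add (isAlgebraic_algebraMap c)
      simpa using this
    obtain ⟨S, hS, hsum, hpos⟩ := hM.zeros _ htc
    have hne : S.Nonempty := by
      rw [Finset.nonempty_iff_ne_empty]
      rintro rfl
      rw [Finset.sum_empty] at hsum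
      have : (Module.finrank k⟮t - algebraMap k M c⟯ M : ℤ) ≠ 0 := by exact_mod_cast hpos.ne'
      exact this hsum.symm
    obtain ⟨w, hw⟩ := hne
    exact ⟨w, (hS w).1 hw⟩
  choose f hf using h1
  apply Infinite.of_injective f
  intro c d hcd
  by_contra hne
  have h2 := hf c
  have h3 := hf d
  rw [← hcd] at h3
  have h4 : (f c).val (algebraMap k M (c - d)) < 1 := by
    have h5 : algebraMap k M (c - d) = (t - algebraMap k M d) - (t - algebraMap k M c) := by
      rw [map_sub]; ring
    rw [h5]
    exact (f c).val.map_sub_lt h3 h2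
  rw [(f c).triv _ (sub_ne_zero.2 hne)] at h4
  exact lt_irrefl _ h4

theorem finite_zeros (hM : IsFunctionField k M) {z : M} (hz : z ≠ 0) :
    {w : Place k M | w.val z < 1}.Finite := by
  obtain ⟨S, h1, -⟩ := hM.product_formula z
  refine S.finite_toSet.subset ?_
  intro w hw
  rw [Finset.mem_coe, h1]
  have := (w.ord_pos_iff hz).2 hw
  omega

theorem finite_poles (hM : IsFunctionField k M) (z : M) :
    {w : Place k M | ¬ w.val z ≤ 1}.Finite := const_mem_Ad hM z

/-- A homomorphism is determined by its action on places. -/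
theorem hom_ext_of_plc [IsAlgClosed k] (hL : IsFunctionField k L) (hM : IsFunctionField k M)
    (p1 p2 : L →ₐ[k] M) (h : ∀ w, plc hL hM p1 w = plc hL hM p2 w) : p1 = p2 := by
  ext x
  by_contra hne
  have hz : p1 x - p2 x ≠ 0 := sub_ne_zero.2 hne
  have h1 : (Set.univ : Set (Place k M)) ⊆
      {w | ¬ w.val (p1 x) ≤ 1} ∪ {w | w.val (p1 x - p2 x) < 1} := by
    intro w _
    by_cases hw : w.val (p1 x) ≤ 1
    · right
      have h2 := (plc_val_le_one hL hM p1 w x).2 hw
      obtain ⟨c, hc⟩ := exists_res_val hL (plc hL hM p1 w) x h2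
      have h3 := (plc_val_lt_one hL hM p1 w _).1 hc
      rw [h w] at hc
      have h4 := (plc_val_lt_one hL hM p2 w _).1 hc
      rw [map_sub, AlgHom.commutes] at h3 h4
      change w.val (p1 x - p2 x) < 1
      have h5 : p1 x - p2 x = (p1 x - algebraMap k M c) - (p2 x - algebraMap k M c) := by ring
      rw [h5]
      exact w.val.map_sub_lt h3 h4
    · exact Or.inl hw
  haveI := infinite_place hM
  exact Set.infinite_univ (((finite_poles hM _).union (finite_zeros hM hz)).subset h1)

/-- the polar divisor -/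
theorem exists_polar [IsAlgClosed k] (hM : IsFunctionField k M) (g : M) (hg : Transcendental k g) :
    ∃ D : Dv k M, (∀ v, 0 ≤ D v) ∧ degD D = Module.finrank k⟮g⟯ M ∧ g ∈ Lsp D := by
  classical
  obtain ⟨S, hS, hsum, hpos⟩ := hM.zeros g⁻¹ (transcendental_inv hg)
  rw [finrank_inv] at hsum
  have hg0 : g ≠ 0 := transcendental_ne_zero hg
  refine ⟨Finsupp.onFinset S (fun v => if v ∈ S then v.ord g⁻¹ else 0) (fun v hv => by
    by_contra hcon
    rw [if_neg hcon] at hv
    exact hv rfl), ?_, ?_, ?_⟩
  · intro v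
    rw [Finsupp.onFinset_apply]
    split_ifs with h
    · exact ((v.ord_pos_iff (inv_ne_zero hg0)).2 ((hS v).1 h)).le
    · exact le_rfl
  · rw [← hsum, degD_eq_sum S (fun v hv => by rw [Finsupp.onFinset_apply, if_neg hv])]
    apply Finset.sum_congr rfl
    intro v hv
    rw [Finsupp.onFinset_apply, if_pos hv, deg_eq_one hM v, Nat.cast_one, mul_one]
  · rw [mem_Lsp]
    intro v
    rw [Finsupp.onFinset_apply]
    split_ifs with h
    · rw [v.ord_inv, Place.ord, neg_neg, WithZero.exp_log (by simpa using hg0)]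
    · rw [hS, map_inv₀, inv_lt_one₀ (zero_lt_iff.2 (by simpa using hg0)), not_lt] at h
      simpa using h

theorem ncard_zeros_le [IsAlgClosed k] (hM : IsFunctionField k M) (z : M)
    (hz : Transcendental k z) :
    {w : Place k M | w.val z < 1}.ncard ≤ Module.finrank k⟮z⟯ M := by
  obtain ⟨S, hS, hsum, hpos⟩ := hM.zeros z hz
  have hz0 : z ≠ 0 := transcendental_ne_zero hz
  have h1 : {w : Place k M | w.val z < 1} = (S : Set (Place k M)) := by
    ext w
    rw [Finset.mem_coe, hS]
    rfl
  rw [h1, Set.ncard_coe_finset]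
  have h2 : (S.card : ℤ) ≤ ∑ v ∈ S, v.ord z * (v.deg : ℤ) := by
    rw [Finset.card_eq_sum_ones, Nat.cast_sum]
    apply Finset.sum_le_sum
    intro v hv
    rw [deg_eq_one hM v, Nat.cast_one, mul_one]
    exact (v.ord_pos_iff hz0).2 ((hS v).1 hv)
  rw [hsum] at h2
  exact_mod_cast h2

theorem ncard_poles_le [IsAlgClosed k] (hM : IsFunctionField k M) (z : M)
    (hz : Transcendental k z) :
    {w : Place k M | ¬ w.val z ≤ 1}.ncard ≤ Module.finrank k⟮z⟯ M := by
  have h1 := ncard_zeros_le hM z⁻¹ (transcendental_inv hz)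
  rw [finrank_inv] at h1
  have hz0 : z ≠ 0 := transcendental_ne_zero hz
  have h2 : {w : Place k M | ¬ w.val z ≤ 1} = {w : Place k M | w.val z⁻¹ < 1} := by
    ext w
    change ¬ w.val z ≤ 1 ↔ w.val z⁻¹ < 1
    rw [map_inv₀, inv_lt_one₀ (zero_lt_iff.2 (by simpa using hz0)), not_le]
  rw [h2]
  exact h1

theorem Lsp_add {D E : Dv k M} (hD : ∀ v, 0 ≤ D v) (hE : ∀ v, 0 ≤ E v) {f g : M}
    (hf : f ∈ Lsp D) (hg : g ∈ Lsp E) : f - g ∈ Lsp (D + E) := by
  rw [mem_Lsp] at hf hg ⊢
  intro v
  refine (v.val.map_sub _ _).trans (max_le ?_ ?_)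
  · refine (hf v).trans (WithZero.exp_le_exp.2 ?_)
    rw [Finsupp.add_apply]
    linarith [hE v]
  · refine (hg v).trans (WithZero.exp_le_exp.2 ?_)
    rw [Finsupp.add_apply]
    linarith [hD v]

/-- The fixed places of an endomorphism. -/
theorem finite_fix [IsAlgClosed k] (hM : IsFunctionField k M) (ψ : M →ₐ[k] M) (g : M)
    (hg : ψ g ≠ g) (ht : Transcendental k g) :
    {w | plc hM hM ψ w = w}.Finite ∧ {w | plc hM hM ψ w = w}.ncard ≤
      2 * Module.finrank k⟮g⟯ M + Module.finrank k⟮ψ g⟯ M := by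
  have hz : ψ g - g ≠ 0 := sub_ne_zero.2 hg
  have hsub : {w | plc hM hM ψ w = w} ⊆ {w | ¬ w.val g ≤ 1} ∪ {w | w.val (ψ g - g) < 1} := by
    intro w hw
    by_cases h : w.val g ≤ 1
    · right
      obtain ⟨c, hc⟩ := exists_res_val hM w g h
      have h1 : (plc hM hM ψ w).val (g - algebraMap k M c) < 1 := by
        rw [show plc hM hM ψ w = w from hw]
        exact hc
      have h2 := (plc_val_lt_one hM hM ψ w _).1 h1
      rw [map_sub, AlgHom.commutes] at h2
      change w.val (ψ g - g) < 1
      have h3 : ψ g - g = (ψ g - algebraMap k M c) - (g - algebraMap k M c) := by ring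
      rw [h3]
      exact w.val.map_sub_lt h2 hc
    · exact Or.inl h
  have hfin := (finite_poles hM g).union (finite_zeros hM hz)
  refine ⟨hfin.subset hsub, ?_⟩
  have h1 := Set.ncard_le_ncard hsub hfin
  have h2 := Set.ncard_union_le {w : Place k M | ¬ w.val g ≤ 1} {w | w.val (ψ g - g) < 1}
  have h3 := ncard_poles_le hM g ht
  have htψ : Transcendental k (ψ g) := by
    intro hal
    exact ht ((isAlgebraic_algHom_iff ψ ψ.toRingHom.injective).1 hal)
  have h4 : {w : Place k M | w.val (ψ g - g) < 1}.ncard ≤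
      Module.finrank k⟮g⟯ M + Module.finrank k⟮ψ g⟯ M := by
    by_cases hal : IsAlgebraic k (ψ g - g)
    · have : {w : Place k M | w.val (ψ g - g) < 1} = ∅ := by
        ext w
        simp only [Set.mem_ofPred_eq, Set.mem_empty_iff_false, iff_false, not_lt]
        exact (w.val_eq_one_of_algebraic hal hz).ge
      rw [this, Set.ncard_empty]
      exact Nat.zero_le _
    · obtain ⟨D, hD0, hD1, hD2⟩ := exists_polar hM g ht
      obtain ⟨E, hE0, hE1, hE2⟩ := exists_polar hM (ψ g) htψ
      have h5 := ncard_zeros_le hM _ hal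
      have h6 := Helper84.RRE.finrank_adjoin_le hM hal (Lsp_add hE0 hD0 hE2 hD2) (fun v => by
        rw [Finsupp.add_apply]
        linarith [hE0 v, hD0 v])
      rw [degD_add, hD1, hE1] at h6
      have h7 : Module.finrank k⟮ψ g - g⟯ M ≤
          Module.finrank k⟮ψ g⟯ M + Module.finrank k⟮g⟯ M := by exact_mod_cast h6
      omega
  omega

end Pool.Agent.Helper47.EN
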