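import Pool.Agent.Helper47.EN.Ext
import Pool.Agent.Helper31.EN.PushPrin
import Pool.Agent.Helper84.EN.Inv

/-!
# The group of automorphisms of translation or reflection type commuting with an endomorphism
-/

set_option autoImplicit false
set_option linter.style.haveILetI false

namespace Pool.Agent.Helper47.EN

open Pool.Agent.Helper16 Pool.Agent.Helper45.S4 Pool.Agent.Helper47.RR IntermediateField

variable {k M : Type} [Field k] [Field M] [Algebra k M]

section kinds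

variable (hM : IsFunctionField k M)

/-- translation type -/
def Kp (a : M ≃ₐ[k] M) : Prop := ∃ c : Cl hM, ∀ P, pt hM (act a P) = pt hM P + c

/-- reflection type -/
def Km (a : M ≃ₐ[k] M) : Prop := ∃ c : Cl hM, ∀ P, pt hM (act a P) = - pt hM P + c

theorem Kp_one : Kp hM 1 := ⟨0, fun P => by rw [Helper45.S4.act_one, add_zero]⟩

theorem act_inv_act (a : M ≃ₐ[k] M) (P : Place k M) : act a (act a⁻¹ P) = P := by
  rw [← Helper45.S4.act_mul, mul_inv_cancel, Helper45.S4.act_one]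

theorem Kp_inv {a : M ≃ₐ[k] M} (h : Kp hM a) : Kp hM a⁻¹ := by
  obtain ⟨c, hc⟩ := h
  refine ⟨-c, fun P => ?_⟩
  have h1 := hc (act a⁻¹ P)
  rw [act_inv_act] at h1
  rw [h1]
  abel

theorem Km_inv {a : M ≃ₐ[k] M} (h : Km hM a) : Km hM a⁻¹ := by
  obtain ⟨c, hc⟩ := h
  refine ⟨c, fun P => ?_⟩
  have h1 := hc (act a⁻¹ P)
  rw [act_inv_act] at h1
  rw [h1]
  abel

theorem Kp_mul {a b : M ≃ₐ[k] M} (ha : Kp hM a) (hb : Kp hM b) : Kp hM (a * b) := by
  obtain ⟨c, hc⟩ := ha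
  obtain ⟨d, hd⟩ := hb
  refine ⟨d + c, fun P => ?_⟩
  rw [Helper45.S4.act_mul, hc, hd]
  abel

theorem Kpm_mul {a b : M ≃ₐ[k] M} (ha : Kp hM a) (hb : Km hM b) : Km hM (a * b) := by
  obtain ⟨c, hc⟩ := ha
  obtain ⟨d, hd⟩ := hb
  refine ⟨d + c, fun P => ?_⟩
  rw [Helper45.S4.act_mul, hc, hd]
  abel

theorem Kmp_mul {a b : M ≃ₐ[k] M} (ha : Km hM a) (hb : Kp hM b) : Km hM (a * b) := by
  obtain ⟨c, hc⟩ := ha
  obtain ⟨d, hd⟩ := hb
  refine ⟨-d + c, fun P => ?_⟩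
  rw [Helper45.S4.act_mul, hc, hd]
  abel

theorem Km_mul {a b : M ≃ₐ[k] M} (ha : Km hM a) (hb : Km hM b) : Kp hM (a * b) := by
  obtain ⟨c, hc⟩ := ha
  obtain ⟨d, hd⟩ := hb
  refine ⟨-d + c, fun P => ?_⟩
  rw [Helper45.S4.act_mul, hc, hd]
  abel

/-- The group `A`. -/
def GA (ψ : M →ₐ[k] M) : Subgroup (M ≃ₐ[k] M) where
  carrier := {a | (∀ x, a (ψ x) = ψ (a x)) ∧ (Kp hM a ∨ Km hM a)}
  mul_mem' := by
    rintro a b ⟨ha, ha'⟩ ⟨hb, hb'⟩
    refine ⟨fun x => ?_, ?_⟩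
    · change a (b (ψ x)) = ψ (a (b x))
      rw [hb, ha]
    · rcases ha' with ha' | ha' <;> rcases hb' with hb' | hb'
      · exact Or.inl (Kp_mul hM ha' hb')
      · exact Or.inr (Kpm_mul hM ha' hb')
      · exact Or.inr (Kmp_mul hM ha' hb')
      · exact Or.inl (Km_mul hM ha' hb')
  one_mem' := ⟨fun _ => rfl, Or.inl (Kp_one hM)⟩
  inv_mem' := by
    rintro a ⟨ha, ha'⟩
    refine ⟨fun x => ?_, ?_⟩
    · change a.symm (ψ x) = ψ (a.symm x)
      rw [AlgEquiv.symm_apply_eq, ha, AlgEquiv.apply_symm_apply]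
    · rcases ha' with ha' | ha'
      · exact Or.inl (Kp_inv hM ha')
      · exact Or.inr (Km_inv hM ha')

theorem mem_GA (ψ : M →ₐ[k] M) (a : M ≃ₐ[k] M) :
    a ∈ GA hM ψ ↔ (∀ x, a (ψ x) = ψ (a x)) ∧ (Kp hM a ∨ Km hM a) := Iff.rfl

end kinds

section main

variable [IsAlgClosed k] (hM : IsFunctionField k M) (hg : genus k M = 1) (ψ : M →ₐ[k] M)

include hM in
theorem act_ext {a b : M ≃ₐ[k] M} (h : ∀ P, act a P = act b P) : a = b := by
  have h1 : ∀ P, act a⁻¹ P = act b⁻¹ P := by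
    intro P
    have h2 : act a (act b⁻¹ P) = P := by rw [h, act_inv_act]
    calc act a⁻¹ P = act a⁻¹ (act a (act b⁻¹ P)) := by rw [h2]
      _ = act b⁻¹ P := by rw [← Helper45.S4.act_mul, inv_mul_cancel, Helper45.S4.act_one]
  have h3 : (a : M →ₐ[k] M) = (b : M →ₐ[k] M) := by
    apply hom_ext_of_plc hM hM
    intro w
    rw [plc_equiv, plc_equiv, h1]
  ext x
  exact DFunLike.congr_fun h3 x

include hg in
theorem Kp_eq {a b : M ≃ₐ[k] M} (ha : Kp hM a) (hb : Kp hM b) (O : Place k M)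
    (h : act a O = act b O) : a = b := by
  obtain ⟨c, hc⟩ := ha
  obtain ⟨d, hd⟩ := hb
  apply act_ext hM
  intro P
  apply Helper84.EN.pt_injective hM hg
  have h1 := hc O
  rw [h, hd] at h1
  rw [hc, hd, add_left_cancel h1]

include hg in
theorem Km_eq {a b : M ≃ₐ[k] M} (ha : Km hM a) (hb : Km hM b) (O : Place k M)
    (h : act a O = act b O) : a = b := by
  obtain ⟨c, hc⟩ := ha
  obtain ⟨d, hd⟩ := hb
  apply act_ext hM
  intro P
  apply Helper84.EN.pt_injective hM hg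
  have h1 := hc O
  rw [h, hd] at h1
  rw [hc, hd, add_left_cancel h1]

/-- automorphisms commuting with `ψ` preserve the fixed places of `ψ` -/
theorem act_mem_fix {a : M ≃ₐ[k] M} (ha : ∀ x, a (ψ x) = ψ (a x)) {O : Place k M}
    (hO : plc hM hM ψ O = O) : plc hM hM ψ (act a O) = act a O := by
  have h1 : (((a⁻¹ : M ≃ₐ[k] M) : M →ₐ[k] M).comp ψ) = ψ.comp ((a⁻¹ : M ≃ₐ[k] M) : M →ₐ[k] M) := by
    ext x
    change a.symm (ψ x) = ψ (a.symm x)
    rw [AlgEquiv.symm_apply_eq, ha, AlgEquiv.apply_symm_apply]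
  rw [plc_act, h1, plc_comp hM hM hM, hO, plc_equiv, inv_inv]

include hg in
theorem finite_GA (O : Place k M) (hO : plc hM hM ψ O = O)
    (hfix : {w | plc hM hM ψ w = w}.Finite) :
    (GA hM ψ : Set (M ≃ₐ[k] M)).Finite ∧
      (GA hM ψ : Set (M ≃ₐ[k] M)).ncard ≤ 2 * {w | plc hM hM ψ w = w}.ncard := by
  set X := {w | plc hM hM ψ w = w} with hX
  let A1 : Set (M ≃ₐ[k] M) := {a | (∀ x, a (ψ x) = ψ (a x)) ∧ Kp hM a}
  let A2 : Set (M ≃ₐ[k] M) := {a | (∀ x, a (ψ x) = ψ (a x)) ∧ Km hM a}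
  have hA : (GA hM ψ : Set (M ≃ₐ[k] M)) = A1 ∪ A2 := by
    ext a
    constructor
    · rintro ⟨h1, h2 | h2⟩
      · exact Or.inl ⟨h1, h2⟩
      · exact Or.inr ⟨h1, h2⟩
    · rintro (⟨h1, h2⟩ | ⟨h1, h2⟩)
      · exact ⟨h1, Or.inl h2⟩
      · exact ⟨h1, Or.inr h2⟩
  have m1 : Set.MapsTo (fun a => act a O) A1 X := fun a ha => act_mem_fix hM ψ ha.1 hO
  have m2 : Set.MapsTo (fun a => act a O) A2 X := fun a ha => act_mem_fix hM ψ ha.1 hO
  have i1 : Set.InjOn (fun a => act a O) A1 := fun a ha b hb h => Kp_eq hM hg ha.2 hb.2 O h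
  have i2 : Set.InjOn (fun a => act a O) A2 := fun a ha b hb h => Km_eq hM hg ha.2 hb.2 O h
  have f1 : A1.Finite := Set.Finite.of_finite_image (hfix.subset m1.image_subset) i1
  have f2 : A2.Finite := Set.Finite.of_finite_image (hfix.subset m2.image_subset) i2
  rw [hA]
  refine ⟨f1.union f2, ?_⟩
  have c1 : A1.ncard ≤ X.ncard := Set.ncard_le_ncard_of_injOn _ m1 i1 hfix
  have c2 : A2.ncard ≤ X.ncard := Set.ncard_le_ncard_of_injOn _ m2 i2 hfix
  have := Set.ncard_union_le A1 A2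
  omega

include hg in
/-- The involution at a fixed place commutes with the endomorphism. -/
theorem involution_comm (O : Place k M) (hO : plc hM hM ψ O = O) (i : M ≃ₐ[k] M)
    (hi : ∀ P, pt hM (act i P) + pt hM P = (2 : ℕ) • pt hM O) (x : M) : i (ψ x) = ψ (i x) := by
  classical
  -- push-forward on classes
  have hpush : ∀ D E : Dv k M, cl hM D = cl hM E →
      cl hM (Finsupp.mapDomain (plc hM hM ψ) D) = cl hM (Finsupp.mapDomain (plc hM hM ψ) E) := by
    intro D E h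
    rw [cl_eq_iff] at h ⊢
    obtain ⟨f, hf, hfD⟩ := h
    obtain ⟨g, hg0, hgD⟩ := Helper31.EN.push_prin hM hM ψ f hf
    refine ⟨g, hg0, ?_⟩
    rw [← hgD, ← hfD]
    have := (Finsupp.mapDomain.addMonoidHom (plc hM hM ψ) : Dv k M →+ Dv k M).map_sub D E
    exact this.symm
  have hpt : ∀ P, pt hM (plc hM hM ψ (act i P)) = pt hM (act i (plc hM hM ψ P)) := by
    intro P
    have h1 : cl hM (Finsupp.single (act i P) 1 + Finsupp.single P 1) =
        cl hM (Finsupp.single O 1 + Finsupp.single O 1) := by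
      rw [map_add, map_add]
      have := hi P
      rw [two_nsmul] at this
      exact this
    have h2 := hpush _ _ h1
    rw [Finsupp.mapDomain_add, Finsupp.mapDomain_add, Finsupp.mapDomain_single,
      Finsupp.mapDomain_single, Finsupp.mapDomain_single, hO, map_add, map_add] at h2
    have h3 : pt hM (plc hM hM ψ (act i P)) + pt hM (plc hM hM ψ P) = pt hM O + pt hM O := h2
    have h4 := hi (plc hM hM ψ P)
    rw [two_nsmul, ← h3] at h4
    exact (add_right_cancel h4).symm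
  have hpl : ∀ P, plc hM hM ψ (act i P) = act i (plc hM hM ψ P) := fun P =>
    Helper84.EN.pt_injective hM hg (hpt P)
  have h5 : (((i⁻¹ : M ≃ₐ[k] M) : M →ₐ[k] M).comp ψ) = ψ.comp ((i⁻¹ : M ≃ₐ[k] M) : M →ₐ[k] M) := by
    apply hom_ext_of_plc hM hM
    intro w
    rw [← plc_act, hpl, plc_comp hM hM hM, plc_equiv, inv_inv]
  have h6 := DFunLike.congr_fun h5 (i x)
  change i.symm (ψ (i x)) = ψ (i.symm (i x)) at h6
  rw [AlgEquiv.symm_apply_apply, AlgEquiv.symm_apply_eq] at h6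
  exact h6.symm

end main

end Pool.Agent.Helper47.EN
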