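import Pool.Agent.Helper47.EN.Defs
import Pool.Agent.Helper31.RRK.Frob
import Pool.Agent.Helper84.RRE
import Pool.Agent.Helper45.S4Inert

/-!
# The involution of a genus one function field attached to a place (existence)
-/

set_option autoImplicit false
set_option linter.style.haveILetI false

namespace Pool.Agent.Helper47.EN

open Pool.Agent.Helper16 Pool.Agent.Helper45.S4 Pool.Agent.Helper47.RR IntermediateField

variable {k M : Type} [Field k] [Field M] [Algebra k M]

/-- A quadratic separable extension has an involution with fixed field the base. -/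
theorem exists_quadratic {F E : Type} [Field F] [Field E] [Algebra F E]
    (h2 : Module.finrank F E = 2) [Algebra.IsSeparable F E] :
    ∃ i : E ≃ₐ[F] E, ∀ x : E, i x = x ↔ x ∈ (⊥ : IntermediateField F E) := by
  classical
  haveI : FiniteDimensional F E := Module.finite_of_finrank_pos (by omega)
  haveI : Algebra.IsQuadraticExtension F E := ⟨h2⟩
  haveI : IsGalois F E := inferInstance
  have hcard : Nat.card (E ≃ₐ[F] E) = 2 := by
    rw [IsGalois.card_aut_eq_finrank, h2]
  obtain ⟨i, hi⟩ : ∃ i : E ≃ₐ[F] E, i ≠ 1 := by
    by_contra hcon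
    push Not at hcon
    haveI : Subsingleton (E ≃ₐ[F] E) := ⟨fun a b => by rw [hcon a, hcon b]⟩
    have := Nat.card_unique (α := E ≃ₐ[F] E)
    omega
  refine ⟨i, fun x => ?_⟩
  rw [IsGalois.mem_bot_iff_fixed]
  constructor
  · intro hx f
    -- every automorphism is `1` or `i`
    have h3 : f = 1 ∨ f = i := by
      by_contra hcon
      push Not at hcon
      have h4 : ({1, i, f} : Finset (E ≃ₐ[F] E)).card = 3 := by
        rw [Finset.card_insert_of_notMem, Finset.card_insert_of_notMem, Finset.card_singleton]
        · simpa using fun h => hcon.2 h.symm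
        · simp only [Finset.mem_insert, Finset.mem_singleton, not_or]
          exact ⟨fun h => hi h.symm, fun h => hcon.1 h.symm⟩
      have h5 := Finset.card_le_univ ({1, i, f} : Finset (E ≃ₐ[F] E))
      rw [h4, ← Nat.card_eq_fintype_card, hcard] at h5
      omega
    rcases h3 with rfl | rfl
    · rfl
    · exact hx
  · intro h
    exact h i

theorem adjoin_top_self (u : M) : k⟮(AdjoinSimple.gen k u : k⟮u⟯)⟯ = (⊤ : IntermediateField k k⟮u⟯) := by
  have h1 := IntermediateField.map_injective (k⟮u⟯.val)
  apply h1
  rw [IntermediateField.adjoin_map, Set.image_singleton]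
  change k⟮u⟯ = _
  rw [← AlgHom.fieldRange_eq_map]
  ext x
  simp

/-- existence of the quotient map of degree two and of the involution -/
theorem exists_u_inv [IsAlgClosed k] (hM : IsFunctionField k M) (hg : genus k M = 1)
    (O : Place k M) : ∃ (u : M) (i : M ≃ₐ[k] M), Transcendental k u ∧
      u ∈ Lsp ((2 : ℕ) • Finsupp.single O 1 : Dv k M) ∧ Module.finrank k⟮u⟯ M = 2 ∧
      ∀ x, i x = x ↔ x ∈ k⟮u⟯ := by
  classical
  set D : Dv k M := (2 : ℕ) • Finsupp.single O 1 with hD
  have hdD : degD D = 2 := by rw [hD, degD_nsmul, degD_single]; norm_num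
  have hell : ell D = 2 := by rw [Helper84.RRE.genus_one_ell hM hg (by rw [hdD]; norm_num), hdD]
  obtain ⟨u, huD, hu⟩ : ∃ u ∈ Lsp D, ∀ c : k, algebraMap k M c ≠ u := by
    by_contra hcon
    push Not at hcon
    have := Helper84.RRE.finrank_le_one_of_const (Lsp D) (fun f hf => hcon f hf)
    unfold ell at hell
    omega
  have htr := Helper84.RRE.transcendental_of_not_const hu
  haveI : FiniteDimensional k⟮u⟯ M := hM.finiteDimensional u htr
  have h1 := Helper84.RRE.finrank_adjoin_le hM htr huD (by
    intro v
    rw [hD]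
    simp only [Finsupp.smul_apply, Finsupp.single_apply]
    split_ifs <;> norm_num)
  rw [hdD] at h1
  have h3 : Module.finrank k⟮u⟯ M ≠ 1 := by
    intro h
    rw [IntermediateField.finrank_eq_one_iff_eq_top] at h
    have := Helper31.RRK.genus_rational hM u h
    omega
  have h4 : 0 < Module.finrank k⟮u⟯ M := Module.finrank_pos
  have h2 : Module.finrank k⟮u⟯ M = 2 := by omega
  haveI hsep : Algebra.IsSeparable k⟮u⟯ M := by
    by_contra hns
    have h5 : separableClosure k⟮u⟯ M = ⊥ := by
      have h6 : Module.finrank k⟮u⟯ (separableClosure k⟮u⟯ M) *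
          Module.finrank (separableClosure k⟮u⟯ M) M = 2 := by
        rw [Module.finrank_mul_finrank, h2]
      rw [← IntermediateField.finrank_eq_one_iff]
      have h7 : Module.finrank (separableClosure k⟮u⟯ M) M ≠ 1 := by
        intro h
        rw [IntermediateField.finrank_eq_one_iff_eq_top] at h
        exact hns ((separableClosure.eq_top_iff _ _).1 h)
      have h8 : Module.finrank k⟮u⟯ (separableClosure k⟮u⟯ M) ∣ 2 := ⟨_, h6.symm⟩
      rcases (Nat.dvd_prime Nat.prime_two).1 h8 with h9 | h9
      · exact h9
      · rw [h9] at h6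
        omega
    haveI : IsPurelyInseparable k⟮u⟯ M := (separableClosure.eq_bot_iff).1 h5
    have h6 := Helper31.RRK.genus_eq_of_isPurelyInseparable hM k⟮u⟯
    have h7 := Helper31.RRK.genus_rational (isFunctionField_adjoin hM u htr) _ (adjoin_top_self u)
    omega
  obtain ⟨i, hi⟩ := exists_quadratic h2
  refine ⟨u, i.restrictScalars k, htr, huD, h2, fun x => ?_⟩
  have h5 := hi x
  rw [IntermediateField.mem_bot] at h5
  refine (Iff.trans (by rfl) h5).trans ?_
  constructor
  · rintro ⟨y, rfl⟩
    exact y.2
  · intro hx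
    exact ⟨⟨x, hx⟩, rfl⟩

end Pool.Agent.Helper47.EN
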